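import Mathlib
import Pool.Agent.McF.Fin

set_option autoImplicit false

open Finset

/-- **McFarland's conjecture unless the order is a prime power.** Let `D` be a nontrivial
`(v, k, lam)` difference set in the finite abelian group `G` with multiplier `-1` (`-D` is a
translate of `D`). Then `v = 4 (k - lam)`, or `(v, k, lam)` is `(4000, 775, 150)` or
`(4000, 3225, 2600)`, or the order `k - lam` is `p ^ (2 r)` for a prime `p ≥ 3`, and there are
`b ≥ 1`, `r ≥ 2 b`, `c ≥ 3`, `A, B ≥ 1` with `v = 2 ^ c p ^ (r + b)`, `A + B = p ^ b`,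
`2 ^ c A B + A = p ^ (r + b) + B` and `k` or `v - k` equal to `p ^ r (2 ^ c A - 1)`; in this case
`r + b` is even if `p = 3` mod 4, `r ≥ 4` if `p = 3`, and `r` is even, `r ≥ 6` and `p - 1` divides `B`
if `p ≥ 5`. -/
theorem Pool.Agent.Results.MP_6085d6_co.PrimePowerOrder.result
    (G : Type) [AddCommGroup G] [Fintype G] [DecidableEq G] (D : Finset G) (lam : ℕ)
    (h1 : 1 < D.card) (h2 : D.card + 1 < Fintype.card G)
    (h3 : ∀ x : G, x ≠ 0 → ((D ×ˢ D).filter (fun p => p.1 - p.2 = x)).card = lam)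
    (h4 : ∃ g : G, D.image (fun d => -d) = D.image (fun d => d + g)) :
    Fintype.card G = 4 * (D.card - lam) ∨
      (Fintype.card G = 4000 ∧ D.card = 775 ∧ lam = 150) ∨
      (Fintype.card G = 4000 ∧ D.card = 3225 ∧ lam = 2600) ∨
      ∃ p b r c A B : ℕ, p.Prime ∧ 3 ≤ p ∧ 1 ≤ b ∧ 2 * b ≤ r ∧ 3 ≤ c ∧ 1 ≤ A ∧ 1 ≤ B ∧
        A + B = p ^ b ∧ 2 ^ c * A * B + A = p ^ (r + b) + B ∧
        Fintype.card G = 2 ^ c * p ^ (r + b) ∧ D.card - lam = p ^ (2 * r) ∧
        (D.card = p ^ r * (2 ^ c * A - 1) ∨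
          Fintype.card G - D.card = p ^ r * (2 ^ c * A - 1)) ∧
        (p % 4 = 3 → Even (r + b)) ∧ (p = 3 → 4 ≤ r) ∧
        (5 ≤ p → Even r ∧ 6 ≤ r ∧ (p - 1) ∣ B) :=
  Pool.Agent.McF.mcfarland G D lam h1 h2 h3 h4
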